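import Pool.Agent.J4H77.PE.One

/-!
# Convergence in mean from one side of the error term
-/

set_option autoImplicit false

open Filter Topology MeasureTheory Set ProbabilityTheory
open scoped ComplexConjugate

namespace Pool.Agent.J4H31.EX

open Pool.Agent.J4H77.PE Pool.Agent.W263.BSD

theorem lap_analytic {f : ℝ → ℝ} (hf : Measurable f) (h0 : ∀ u, 0 < u → 0 ≤ f u) {s : ℝ}
    (hL : ∀ w > s, LInt f w) : ∀ w > s, AnalyticAt ℝ (fun w => lap f w) w := by
  intro w hw
  have h2 : (fun w => lap f w) = fun w => mgf id (dens f) (-w) := by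
    funext w
    rw [mgf_dens hf h0, neg_neg]
  rw [h2]
  have h3 : AnalyticAt ℝ (mgf id (dens f)) (-w) := by
    apply analyticAt_mgf
    rw [mem_interior]
    refine ⟨Iio (-s), fun t ht => ?_, isOpen_Iio, by simpa using hw⟩
    rw [mem_integrableExpSet_dens hf h0]
    exact hL _ (by have : t < -s := ht; show s < -t; linarith)
  exact h3.comp_of_eq (analyticAt_id.neg) rfl

/-- if the part of one sign converges in mean, then everything does -/
theorem conv_of_part {k : ℕ} (hk : 1 ≤ k) {P : Polynomial ℝ} {θ C : ℝ} (hg : Good k P θ C) {s b : ℝ}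
    (hs : s = 1 ∨ s = -1) (hb0 : 0 ≤ b)
    (h : ∀ σ : ℝ, b < σ → LInt (fun u => max (s * fe k P u) 0) σ) : Conv k P b := by
  have hs1 : |s| = 1 := by rcases hs with h | h <;> rw [h] <;> norm_num
  obtain ⟨p, hp⟩ : ∃ p : ℝ → ℝ, p = fun u => max (s * fe k P u) 0 := ⟨_, rfl⟩
  obtain ⟨f, hf⟩ : ∃ f : ℝ → ℝ, f = fun u => p u - s * fe k P u := ⟨_, rfl⟩
  have hpm : Measurable p := by
    have := fe_meas k P
    rw [hp]
    fun_prop
  have hfm : Measurable f := by
    have := fe_meas k P
    rw [hf]
    fun_prop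
  have hp0 : ∀ u, 0 ≤ p u := fun u => by rw [hp]; exact le_max_right _ _
  have hf0 : ∀ u, 0 ≤ f u := by
    intro u
    rw [hf, hp]
    simp only
    linarith [le_max_left (s * fe k P u) 0]
  have hpL : ∀ w : ℝ, b < w → LInt p w := fun w hw => by rw [hp]; exact h w hw
  have hfi : ∀ w : ℝ, θ < w → IntegrableOn (fun u : ℝ => fe k P u * Real.exp (-(w * u))) (Ioi 0) := by
    intro w hw
    have h1 := conv_good hg w hw
    refine Integrable.mono' h1 ?_ (Eventually.of_forall fun u => ?_)
    · have := fe_meas k P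
      exact Measurable.aestronglyMeasurable (by fun_prop)
    · rw [Real.norm_eq_abs, abs_mul, abs_of_pos (Real.exp_pos _)]
      apply le_of_eq
      ring_nf
  have hsplit : ∀ w u : ℝ, f u * Real.exp (-(w * u)) = p u * Real.exp (-(w * u)) - s * (fe k P u * Real.exp (-(w * u))) := by
    intro w u
    rw [hf]
    simp only
    ring
  have hint : ∀ w : ℝ, max b 1 < w → LInt f w := by
    intro w hw
    have h1 : b < w := lt_of_le_of_lt (le_max_left _ _) hw
    have h2 : 1 < w := lt_of_le_of_lt (le_max_right _ _) hw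
    unfold LInt
    simp_rw [hsplit]
    have h4 : Integrable (fun u => p u * Real.exp (-(w * u))) (volume.restrict (Ioi 0)) := hpL w h1
    have h5 : Integrable (fun u => fe k P u * Real.exp (-(w * u))) (volume.restrict (Ioi 0)) := hfi w (by linarith [hg.2.1])
    exact h4.sub (h5.const_mul s)
  have hval : ∀ w : ℝ, max b 1 < w → b < w → lap f w = lap p w - s * (Hf k P w).re := by
    intro w hw h1
    have h2 : 1 < w := lt_of_le_of_lt (le_max_right _ _) hw
    have h3 : θ < w := by linarith [hg.2.1]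
    unfold lap
    simp_rw [hsplit]
    have h4 : Integrable (fun u => p u * Real.exp (-(w * u))) (volume.restrict (Ioi 0)) := hpL w h1
    have h5 : Integrable (fun u => fe k P u * Real.exp (-(w * u))) (volume.restrict (Ioi 0)) := hfi w h3
    rw [integral_sub h4 (h5.const_mul s), integral_const_mul]
    congr 2
    rw [Hf_eq hk hg hg.1.le (by linarith [hg.2.1]) (conv_good hg) (by simpa using h3)]
    unfold Mf
    have e : ∀ u : ℝ, (fe k P u : ℂ) * Complex.exp (-(w : ℂ) * u) = ((fe k P u * Real.exp (-(w * u)) : ℝ) : ℂ) := by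
      intro u
      push_cast
      ring_nf
    simp_rw [e]
    rw [integral_complex_ofReal, Complex.ofReal_re]
  have hana : ∀ w > b, AnalyticAt ℝ (fun w : ℝ => lap p w - s * (Hf k P w).re) w := by
    intro w hw
    exact (lap_analytic hpm (fun u _ => hp0 u) hpL w hw).sub (analyticAt_const.mul (Hf_analytic hk hg (by linarith)))
  obtain ⟨hL, -⟩ := Pool.Agent.TH988.RB.landau_lap hfm (fun u _ => hf0 u) (a := b) (w1 := max b 1) (fun w hw => hint w hw)
    hana (fun w hw h1 => hval w hw h1)
  intro σ hσ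
  have h1 : Integrable (fun u => f u * Real.exp (-(σ * u))) (volume.restrict (Ioi 0)) := hL σ hσ
  have h2 : Integrable (fun u => p u * Real.exp (-(σ * u))) (volume.restrict (Ioi 0)) := hpL σ hσ
  refine Integrable.mono' (h1.add h2) ?_ ?_
  · have := fe_meas k P
    exact Measurable.aestronglyMeasurable (by fun_prop)
  · refine Eventually.of_forall fun u => ?_
    rw [Real.norm_eq_abs, abs_mul, abs_abs, abs_of_pos (Real.exp_pos _), Pi.add_apply, ← add_mul]
    have h4 : |fe k P u| ≤ f u + p u := by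
      have h5 : |fe k P u| = |s * fe k P u| := by rw [abs_mul, hs1, one_mul]
      rw [h5]
      have h6 : s * fe k P u = p u - f u := by rw [hf]; ring
      rw [h6, abs_le]
      constructor <;> linarith [hp0 u, hf0 u]
    have e : Real.exp (-σ * u) = Real.exp (-(σ * u)) := by ring_nf
    rw [e]
    gcongr

/-- change of variables -/
lemma covp (h : ℝ → ℝ) (U : ℝ) :
    ∫⁻ y in Icc 1 (Real.exp U), ENNReal.ofReal (h y) =
      ∫⁻ u in Icc 0 U, ENNReal.ofReal (Real.exp u * h (Real.exp u)) := by
  have himg : Real.exp '' Icc 0 U = Icc 1 (Real.exp U) := by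
    ext y
    constructor
    · rintro ⟨u, hu, rfl⟩
      exact ⟨Real.one_le_exp hu.1, Real.exp_le_exp.2 hu.2⟩
    · intro hy
      have hy0 : 0 < y := by linarith [hy.1]
      refine ⟨Real.log y, ⟨Real.log_nonneg hy.1, ?_⟩, Real.exp_log hy0⟩
      rw [← Real.log_exp U]
      exact Real.log_le_log hy0 hy.2
  rw [← himg]
  rw [lintegral_image_eq_lintegral_abs_deriv_mul measurableSet_Icc
    (fun x _ => (Real.hasDerivAt_exp x).hasDerivWithinAt) (Real.exp_injective.injOn)]
  apply setLIntegral_congr_fun measurableSet_Icc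
  intro u hu
  simp only
  rw [abs_of_pos (Real.exp_pos _), ← ENNReal.ofReal_mul (Real.exp_pos _).le]

/-- a bound for the mean of the part of one sign gives convergence in mean -/
theorem conv_of_mean {k : ℕ} (hk : 1 ≤ k) {P : Polynomial ℝ} {θ C : ℝ} (hg : Good k P θ C) {s b A : ℝ}
    (hs : s = 1 ∨ s = -1)
    (h : ∀ x : ℝ, 1 ≤ x → ∫⁻ y in Icc 1 x, ENNReal.ofReal (s * err k P y) ≤ ENNReal.ofReal (A * x ^ (1 + b))) :
    Conv k P (max b 0) := by
  refine conv_of_part hk hg hs (le_max_right _ _) ?_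
  intro σ hσ
  have hbσ : b < σ := lt_of_le_of_lt (le_max_left _ _) hσ
  have hσ0 : 0 < σ := lt_of_le_of_lt (le_max_right _ _) hσ
  have hfm := fe_meas k P
  have hmeas : Measurable (fun u => max (s * fe k P u) 0 * Real.exp (-(σ * u))) := by fun_prop
  have hnn : ∀ u : ℝ, 0 ≤ max (s * fe k P u) 0 * Real.exp (-(σ * u)) := fun u => by positivity
  have hsub : (Ioi (0 : ℝ)) ⊆ ⋃ n : ℕ, Ico (n : ℝ) (n + 1) := by
    intro u hu
    rw [mem_iUnion]
    exact ⟨⌊u⌋₊, Nat.floor_le (mem_Ioi.1 hu).le, Nat.lt_floor_add_one u⟩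
  have h2 : ∀ n : ℕ, ∫⁻ u in Ico (n : ℝ) (n + 1), ENNReal.ofReal (max (s * fe k P u) 0 * Real.exp (-(σ * u))) ≤
      ENNReal.ofReal (|A| * Real.exp (|1 + b|) * Real.exp (-(σ - b)) ^ n) := by
    intro n
    have hn0 : (0 : ℝ) ≤ n := Nat.cast_nonneg n
    have hx : 1 ≤ Real.exp ((n : ℝ) + 1) := Real.one_le_exp (by positivity)
    calc ∫⁻ u in Ico (n : ℝ) (n + 1), ENNReal.ofReal (max (s * fe k P u) 0 * Real.exp (-(σ * u))) ≤
        ∫⁻ u in Ico (n : ℝ) (n + 1), ENNReal.ofReal (Real.exp (-(1 + σ) * n)) *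
          ENNReal.ofReal (Real.exp u * (s * err k P (Real.exp u))) := by
          apply setLIntegral_mono' measurableSet_Ico
          intro u hu
          have hu0 : 0 ≤ u := hn0.trans hu.1
          rw [fe_pos hu0, ← ENNReal.ofReal_mul (Real.exp_pos _).le]
          rcases le_total (s * err k P (Real.exp u)) 0 with h0 | h0
          · rw [max_eq_right h0]
            simp
          · rw [max_eq_left h0]
            apply ENNReal.ofReal_le_ofReal
            have e : Real.exp (-(σ * u)) = Real.exp (-(1 + σ) * u) * Real.exp u := by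
              rw [← Real.exp_add]
              ring_nf
            have h3 : Real.exp (-(1 + σ) * u) ≤ Real.exp (-(1 + σ) * n) := by
              apply Real.exp_le_exp.2
              nlinarith [hu.1]
            rw [e]
            calc s * err k P (Real.exp u) * (Real.exp (-(1 + σ) * u) * Real.exp u) =
                Real.exp (-(1 + σ) * u) * (Real.exp u * (s * err k P (Real.exp u))) := by ring
              _ ≤ _ := mul_le_mul_of_nonneg_right h3 (by positivity)
      _ = ENNReal.ofReal (Real.exp (-(1 + σ) * n)) *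
          ∫⁻ u in Ico (n : ℝ) (n + 1), ENNReal.ofReal (Real.exp u * (s * err k P (Real.exp u))) := by
          rw [lintegral_const_mul' _ _ ENNReal.ofReal_ne_top]
      _ ≤ ENNReal.ofReal (Real.exp (-(1 + σ) * n)) *
          ∫⁻ u in Icc (0 : ℝ) (n + 1), ENNReal.ofReal (Real.exp u * (s * err k P (Real.exp u))) := by
          gcongr
          intro u hu
          exact ⟨hn0.trans hu.1, hu.2.le⟩
      _ ≤ ENNReal.ofReal (Real.exp (-(1 + σ) * n)) * ENNReal.ofReal (A * Real.exp ((n : ℝ) + 1) ^ (1 + b)) := by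
          gcongr
          rw [← covp (fun y => s * err k P y)]
          exact h _ hx
      _ ≤ _ := by
          rw [← ENNReal.ofReal_mul (Real.exp_pos _).le]
          apply ENNReal.ofReal_le_ofReal
          rw [← Real.exp_mul, ← Real.exp_nat_mul]
          calc Real.exp (-(1 + σ) * n) * (A * Real.exp (((n : ℝ) + 1) * (1 + b))) ≤
              Real.exp (-(1 + σ) * n) * (|A| * Real.exp (((n : ℝ) + 1) * (1 + b))) := by
                gcongr
                exact le_abs_self A
            _ = |A| * (Real.exp (-(1 + σ) * n) * Real.exp (((n : ℝ) + 1) * (1 + b))) := by ring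
            _ = |A| * (Real.exp (1 + b) * Real.exp (n * -(σ - b))) := by
                rw [← Real.exp_add, ← Real.exp_add]
                congr 2
                ring
            _ ≤ |A| * (Real.exp |1 + b| * Real.exp (n * -(σ - b))) := by
                gcongr
                exact le_abs_self _
            _ = _ := by ring
  have hr : Real.exp (-(σ - b)) < 1 := by
    rw [Real.exp_lt_one_iff]
    linarith
  have hs' : Summable (fun n : ℕ => |A| * Real.exp (|1 + b|) * Real.exp (-(σ - b)) ^ n) :=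
    (summable_geometric_of_lt_one (Real.exp_pos _).le hr).mul_left _
  unfold LInt
  refine ⟨hmeas.aestronglyMeasurable, ?_⟩
  rw [hasFiniteIntegral_iff_ofReal (Eventually.of_forall hnn)]
  calc ∫⁻ u in Ioi (0 : ℝ), ENNReal.ofReal (max (s * fe k P u) 0 * Real.exp (-(σ * u))) ≤
        ∫⁻ u in ⋃ n : ℕ, Ico (n : ℝ) (n + 1), ENNReal.ofReal (max (s * fe k P u) 0 * Real.exp (-(σ * u))) :=
        lintegral_mono_set hsub
    _ ≤ ∑' n : ℕ, ∫⁻ u in Ico (n : ℝ) (n + 1), ENNReal.ofReal (max (s * fe k P u) 0 * Real.exp (-(σ * u))) :=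
        lintegral_iUnion_le _ _
    _ ≤ ∑' n : ℕ, ENNReal.ofReal (|A| * Real.exp (|1 + b|) * Real.exp (-(σ - b)) ^ n) := ENNReal.tsum_le_tsum h2
    _ < ⊤ := by
        rw [← ENNReal.ofReal_tsum_of_nonneg (fun n => by positivity) hs']
        exact ENNReal.ofReal_lt_top

/-- a bound outside of a set of small measure, with a general pointwise bound, gives a bound for the mean -/
theorem mean_of_exc {k : ℕ} {P : Polynomial ℝ} {s a τ η B D₀ : ℝ} (hs : s = 1 ∨ s = -1) (ha : 0 ≤ a) (hτ : 0 ≤ τ)
    (hB0 : 0 ≤ B) (hB : ∀ x : ℝ, 1 ≤ x → |err k P x| ≤ B * x ^ τ)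
    (h : ∀ X : ℝ, 1 ≤ X → volume {x : ℝ | 1 ≤ x ∧ x ≤ X ∧ x ^ a < s * err k P x} ≤ ENNReal.ofReal (D₀ * X ^ (1 - η))) :
    ∀ x : ℝ, 1 ≤ x → ∫⁻ y in Icc 1 x, ENNReal.ofReal (s * err k P y) ≤
      ENNReal.ofReal ((1 + B * |D₀|) * x ^ (1 + max a (τ - η))) := by
  intro X hX
  have hX0 : 0 < X := by linarith
  have hem := err_meas k P
  set E : Set ℝ := {x : ℝ | 1 ≤ x ∧ x ≤ X ∧ x ^ a < s * err k P x} with hE
  have hEm : MeasurableSet E := by
    rw [hE]
    have h1 : MeasurableSet {x : ℝ | 1 ≤ x} := measurableSet_Ici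
    have h2 : MeasurableSet {x : ℝ | x ≤ X} := measurableSet_Iic
    have h3 : MeasurableSet {x : ℝ | x ^ a < s * err k P x} := measurableSet_lt (by fun_prop) (by fun_prop)
    exact h1.inter (h2.inter h3)
  have hpt : ∀ y ∈ Icc 1 X, ENNReal.ofReal (s * err k P y) ≤
      ENNReal.ofReal (X ^ a) + E.indicator (fun _ => ENNReal.ofReal (B * X ^ τ)) y := by
    intro y hy
    have hy0 : 0 < y := by linarith [hy.1]
    by_cases hyE : y ∈ E
    · rw [indicator_of_mem hyE]
      refine le_add_left (ENNReal.ofReal_le_ofReal ?_)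
      calc s * err k P y ≤ |s * err k P y| := le_abs_self _
        _ = |err k P y| := by rw [abs_mul]; rcases hs with h | h <;> rw [h] <;> norm_num
        _ ≤ B * y ^ τ := hB y hy.1
        _ ≤ B * X ^ τ := mul_le_mul_of_nonneg_left (Real.rpow_le_rpow hy0.le hy.2 hτ) hB0
    · rw [indicator_of_notMem hyE, add_zero]
      apply ENNReal.ofReal_le_ofReal
      have h1 : s * err k P y ≤ y ^ a := by
        by_contra hcon
        push Not at hcon
        exact hyE ⟨hy.1, hy.2, hcon⟩
      exact h1.trans (Real.rpow_le_rpow hy0.le hy.2 ha)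
  calc ∫⁻ y in Icc 1 X, ENNReal.ofReal (s * err k P y) ≤
      ∫⁻ y in Icc 1 X, (ENNReal.ofReal (X ^ a) + E.indicator (fun _ => ENNReal.ofReal (B * X ^ τ)) y) :=
        setLIntegral_mono' measurableSet_Icc hpt
    _ = ENNReal.ofReal (X ^ a) * volume (Icc 1 X) +
        ∫⁻ y in Icc 1 X, E.indicator (fun _ => ENNReal.ofReal (B * X ^ τ)) y := by
        rw [lintegral_add_left measurable_const, setLIntegral_const]
    _ ≤ ENNReal.ofReal (X ^ a) * ENNReal.ofReal X + ENNReal.ofReal (B * X ^ τ) * volume E := by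
        gcongr
        · rw [Real.volume_Icc]
          exact ENNReal.ofReal_le_ofReal (by linarith)
        · refine (lintegral_mono' Measure.restrict_le_self le_rfl).trans ?_
          rw [lintegral_indicator_const hEm]
    _ ≤ ENNReal.ofReal (X ^ a) * ENNReal.ofReal X + ENNReal.ofReal (B * X ^ τ) * ENNReal.ofReal (|D₀| * X ^ (1 - η)) := by
        gcongr
        refine (h X hX).trans (ENNReal.ofReal_le_ofReal ?_)
        gcongr
        exact le_abs_self D₀
    _ ≤ _ := by
        have e1 : (0 : ℝ) ≤ X ^ a := by positivity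
        have e2 : (0 : ℝ) ≤ B * X ^ τ := by positivity
        rw [← ENNReal.ofReal_mul e1, ← ENNReal.ofReal_mul e2, ← ENNReal.ofReal_add (by positivity) (by positivity)]
        apply ENNReal.ofReal_le_ofReal
        have h1 : X ^ a * X = X ^ (1 + a) := by
          rw [Real.rpow_add hX0, Real.rpow_one]
          ring
        have h2 : B * X ^ τ * (|D₀| * X ^ (1 - η)) = B * |D₀| * X ^ (1 + (τ - η)) := by
          have : X ^ (1 + (τ - η)) = X ^ τ * X ^ (1 - η) := by
            rw [← Real.rpow_add hX0]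
            congr 1
            ring
          rw [this]
          ring
        have h3 : X ^ (1 + a) ≤ X ^ (1 + max a (τ - η)) :=
          Real.rpow_le_rpow_of_exponent_le hX (by linarith [le_max_left a (τ - η)])
        have h4 : X ^ (1 + (τ - η)) ≤ X ^ (1 + max a (τ - η)) :=
          Real.rpow_le_rpow_of_exponent_le hX (by linarith [le_max_right a (τ - η)])
        rw [h1, h2, add_mul, one_mul]
        have h5 : 0 ≤ B * |D₀| := by positivity
        exact add_le_add h3 (mul_le_mul_of_nonneg_left h4 h5)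

end Pool.Agent.J4H31.EX
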