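import Pool.Agent.J4H31.EX.Samp

/-!
# First means of the error term
-/

set_option autoImplicit false

open Filter Topology MeasureTheory Set

namespace Pool.Agent.J4H31.EX

open Pool.Agent.J4H77.PE

lemma part_int {k : ℕ} {P : Polynomial ℝ} {θ C s x : ℝ} (hg : Good k P θ C) (hs : s = 1 ∨ s = -1) (hx : 1 ≤ x) :
    IntegrableOn (fun y => max (s * err k P y) 0) (Icc 1 x) := by
  have hem := err_meas k P
  refine Measure.integrableOn_of_bounded (M := C * x ^ θ) (by rw [Real.volume_Icc]; exact ENNReal.ofReal_ne_top)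
    (Measurable.aestronglyMeasurable (by fun_prop)) ?_
  refine (ae_restrict_iff' measurableSet_Icc).2 (Eventually.of_forall fun y hy => ?_)
  have h1 : |s * err k P y| = |err k P y| := by
    rw [abs_mul]
    rcases hs with h | h <;> rw [h] <;> norm_num
  have h2 := hg.2.2.2 y hy.1
  have h3 : C * y ^ θ ≤ C * x ^ θ :=
    mul_le_mul_of_nonneg_left (Real.rpow_le_rpow (by linarith [hy.1]) hy.2 hg.1.le) hg.2.2.1
  rw [Real.norm_eq_abs, abs_of_nonneg (le_max_right _ _)]
  apply max_le
  · have := le_abs_self (s * err k P y)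
    linarith
  · have := abs_nonneg (err k P y)
    linarith

lemma lint_eq {k : ℕ} {P : Polynomial ℝ} {θ C s x : ℝ} (hg : Good k P θ C) (hs : s = 1 ∨ s = -1) (hx : 1 ≤ x) :
    ∫⁻ y in Icc 1 x, ENNReal.ofReal (s * err k P y) = ENNReal.ofReal (∫ y in (1 : ℝ)..x, max (s * err k P y) 0) := by
  rw [intervalIntegral.integral_of_le hx, ← integral_Icc_eq_integral_Ioc,
    ofReal_integral_eq_lintegral_ofReal (part_int hg hs hx) (Eventually.of_forall fun y => le_max_right _ _)]
  apply lintegral_congr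
  intro y
  rcases le_total (s * err k P y) 0 with h | h
  · rw [max_eq_right h, ENNReal.ofReal_of_nonpos h, ENNReal.ofReal_zero]
  · rw [max_eq_left h]

lemma conv_of_mean_int {k : ℕ} (hk : 1 ≤ k) {P : Polynomial ℝ} {θ C : ℝ} (hg : Good k P θ C) {s b A : ℝ}
    (hs : s = 1 ∨ s = -1)
    (h : ∀ x : ℝ, 1 ≤ x → ∫ y in (1 : ℝ)..x, max (s * err k P y) 0 ≤ A * x ^ (1 + b)) : Conv k P (max b 0) := by
  refine conv_of_mean hk hg hs (A := A) fun x hx => ?_
  rw [lint_eq hg hs hx]
  exact ENNReal.ofReal_le_ofReal (h x hx)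

lemma mean_up {k : ℕ} {P : Polynomial ℝ} {s τ A : ℝ} (hs : s = 1 ∨ s = -1) (hτ : 0 ≤ τ) (hA : 0 ≤ A)
    (h : ∀ x : ℝ, 1 ≤ x → |err k P x| ≤ A * x ^ τ) :
    ∀ x : ℝ, 1 ≤ x → ∫ y in (1 : ℝ)..x, max (s * err k P y) 0 ≤ A * x ^ (1 + τ) := by
  intro x hx
  have hx0 : 0 < x := by linarith
  have h1 : ‖∫ y in (1 : ℝ)..x, max (s * err k P y) 0‖ ≤ (A * x ^ τ) * |x - 1| := by
    apply intervalIntegral.norm_integral_le_of_norm_le_const
    intro y hy
    rw [uIoc_of_le hx] at hy
    have h1 : |s * err k P y| = |err k P y| := by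
      rw [abs_mul]
      rcases hs with h | h <;> rw [h] <;> norm_num
    have h2 := h y hy.1.le
    have h3 : A * y ^ τ ≤ A * x ^ τ :=
      mul_le_mul_of_nonneg_left (Real.rpow_le_rpow (by linarith [hy.1]) hy.2 hτ) hA
    rw [Real.norm_eq_abs, abs_of_nonneg (le_max_right _ _)]
    apply max_le
    · have := le_abs_self (s * err k P y)
      linarith
    · have := abs_nonneg (err k P y)
      linarith
  refine (le_abs_self _).trans (h1.trans ?_)
  rw [abs_of_nonneg (by linarith)]
  calc A * x ^ τ * (x - 1) ≤ A * x ^ τ * x := by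
        apply mul_le_mul_of_nonneg_left (by linarith)
        positivity
    _ = A * x ^ (1 + τ) := by
        rw [Real.rpow_add hx0, Real.rpow_one]
        ring

end Pool.Agent.J4H31.EX
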