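import Pool.Agent.J4H31.EX.Lap

/-!
# Squares as sampling points
-/

set_option autoImplicit false

open Filter Topology MeasureTheory Set

namespace Pool.Agent.J4H31.EX

open Pool.Agent.J4H77.PE

/-- the main term at two points -/
lemma main_diff (P : Polynomial ℝ) {η : ℝ} (hη : 0 < η) : ∃ Q : ℝ, 0 ≤ Q ∧ ∀ x y X : ℝ, 1 ≤ y → y ≤ x → x ≤ X →
    |x * P.eval (Real.log x) - y * P.eval (Real.log y)| ≤ Q * X ^ (1 + η) * ((x - y) / y) := by
  obtain ⟨Q, hQ, h⟩ := Mt_lip P hη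
  refine ⟨Q, hQ, fun x y X hy hyx hxX => ?_⟩
  have hy0 : 0 < y := by linarith
  have hx0 : 0 < x := by linarith
  have hX0 : 0 < X := by linarith
  have h1 := h (Real.log X) (Real.log_nonneg (by linarith)) (Real.log x) (Real.log y) (Real.log_nonneg (by linarith))
    (Real.log_le_log hx0 hxX) (Real.log_nonneg hy) (Real.log_le_log hy0 (by linarith))
  unfold Mt at h1
  rw [Real.exp_log hx0, Real.exp_log hy0] at h1
  refine h1.trans ?_
  have e1 : Real.exp ((1 + η) * Real.log X) = X ^ (1 + η) := by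
    rw [Real.rpow_def_of_pos hX0]
    ring_nf
  rw [e1]
  have h2 : |Real.log x - Real.log y| ≤ (x - y) / y := by
    rw [abs_of_nonneg (by linarith [Real.log_le_log hy0 hyx]), ← Real.log_div hx0.ne' hy0.ne']
    have := Real.log_le_sub_one_of_pos (div_pos hx0 hy0)
    calc _ ≤ x / y - 1 := this
      _ = (x - y) / y := by field_simp
  gcongr

/-- comparison with a square -/
lemma near_square (k : ℕ) (P : Polynomial ℝ) {s η : ℝ} (hs : s = 1 ∨ s = -1) (hη : 0 < η) (hη1 : η ≤ 1) :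
    ∃ Q : ℝ, 0 ≤ Q ∧ ∀ x : ℝ, 1 ≤ x → ∃ m : ℕ, 1 ≤ m ∧ (m : ℝ) ≤ Real.sqrt x + 1 ∧ Real.sqrt x ≤ m + 1 ∧
      s * err k P x ≤ s * err k P ((m : ℝ) ^ 2) + Q * x ^ (1 / 2 + η) := by
  obtain ⟨Q, hQ, h⟩ := main_diff P hη
  refine ⟨48 * Q, by positivity, fun x hx => ?_⟩
  have hx0 : 0 < x := by linarith
  obtain ⟨r, hr⟩ : ∃ r, r = Real.sqrt x := ⟨_, rfl⟩
  have hr1 : 1 ≤ r := by rw [hr]; exact Real.one_le_sqrt.2 hx
  have hr0 : 0 < r := by linarith
  have hrx : r ^ 2 = x := by rw [hr]; exact Real.sq_sqrt hx0.le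
  rw [← hr]
  have hfl := Nat.floor_le hr0.le
  have hfl2 := Nat.lt_floor_add_one r
  have hpow : x ^ (1 + η) = x ^ (1 / 2 + η) * r := by
    rw [hr, Real.sqrt_eq_rpow, ← Real.rpow_add hx0]
    congr 1
    ring
  have hp0 : 0 ≤ x ^ (1 / 2 + η) := by positivity
  rcases hs with hs | hs
  · refine ⟨⌊r⌋₊ + 1, by omega, by push_cast; linarith, by push_cast; linarith, ?_⟩
    obtain ⟨m, hm⟩ : ∃ m : ℝ, m = ((⌊r⌋₊ + 1 : ℕ) : ℝ) := ⟨_, rfl⟩
    rw [← hm]
    have hm1 : r < m := by rw [hm]; push_cast; exact hfl2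
    have hm2 : m ≤ r + 1 := by rw [hm]; push_cast; linarith
    have hxm : x ≤ m ^ 2 := by rw [← hrx]; gcongr
    have hmx : m ^ 2 ≤ 4 * x := by rw [← hrx]; nlinarith
    have h1 := h (m ^ 2) x (m ^ 2) hx hxm le_rfl
    have h2 : (m ^ 2 - x) / x ≤ 3 / r := by
      rw [div_le_div_iff₀ hx0 hr0]
      rw [← hrx]
      have : m ^ 2 - r ^ 2 ≤ 3 * r := by nlinarith
      nlinarith
    have h3 : (m ^ 2) ^ (1 + η) ≤ 16 * x ^ (1 + η) := by
      calc (m ^ 2) ^ (1 + η) ≤ (4 * x) ^ (1 + η) := Real.rpow_le_rpow (by positivity) hmx (by linarith)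
        _ = 4 ^ (1 + η) * x ^ (1 + η) := Real.mul_rpow (by norm_num) hx0.le
        _ ≤ 4 ^ (2 : ℝ) * x ^ (1 + η) := by
            gcongr
            · norm_num
            · linarith
        _ = 16 * x ^ (1 + η) := by norm_num
    have h4 : Q * (m ^ 2) ^ (1 + η) * ((m ^ 2 - x) / x) ≤ 48 * Q * x ^ (1 / 2 + η) := by
      calc Q * (m ^ 2) ^ (1 + η) * ((m ^ 2 - x) / x) ≤ Q * (16 * x ^ (1 + η)) * (3 / r) := by
            have : 0 ≤ (m ^ 2 - x) / x := div_nonneg (by linarith) hx0.le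
            gcongr
        _ = 48 * Q * x ^ (1 / 2 + η) := by
            rw [hpow]
            field_simp
            ring
    have h5 : D k x ≤ D k (m ^ 2) := D_mono k hxm
    have h6 := (abs_le.1 (h1.trans h4)).2
    rw [hs, one_mul, one_mul]
    unfold err
    linarith
  · have hm0 : 1 ≤ ⌊r⌋₊ := Nat.le_floor (by simpa using hr1)
    refine ⟨⌊r⌋₊, hm0, by linarith, by linarith, ?_⟩
    obtain ⟨m, hm⟩ : ∃ m : ℝ, m = ((⌊r⌋₊ : ℕ) : ℝ) := ⟨_, rfl⟩
    rw [← hm]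
    rw [← hm] at hfl hfl2
    have hm1 : 1 ≤ m := by rw [hm]; exact_mod_cast hm0
    have hmx : m ^ 2 ≤ x := by rw [← hrx]; gcongr
    have h1 := h x (m ^ 2) x (by nlinarith) hmx le_rfl
    have h2 : (x - m ^ 2) / m ^ 2 ≤ 6 / r := by
      rw [div_le_div_iff₀ (by positivity) hr0]
      rw [← hrx]
      have h7 : r ^ 2 - m ^ 2 ≤ 3 * m := by nlinarith
      have h8 : r ≤ 2 * m := by linarith
      calc (r ^ 2 - m ^ 2) * r ≤ (3 * m) * r := by gcongr
        _ ≤ (3 * m) * (2 * m) := by gcongr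
        _ = 6 * m ^ 2 := by ring
    have h4 : Q * x ^ (1 + η) * ((x - m ^ 2) / m ^ 2) ≤ 48 * Q * x ^ (1 / 2 + η) := by
      calc Q * x ^ (1 + η) * ((x - m ^ 2) / m ^ 2) ≤ Q * x ^ (1 + η) * (6 / r) := by gcongr
        _ = 6 * Q * x ^ (1 / 2 + η) := by
            rw [hpow]
            field_simp
        _ ≤ 48 * Q * x ^ (1 / 2 + η) := by gcongr; norm_num
    have h5 : D k (m ^ 2) ≤ D k x := D_mono k hmx
    have h6 := (abs_le.1 (h1.trans h4)).2
    rw [hs]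
    unfold err
    linarith

/-- a bound at most squares gives a bound at most real numbers -/
theorem vol_of_squares {k : ℕ} {P : Polynomial ℝ} {s a ε η C : ℝ} (hs : s = 1 ∨ s = -1) (ha : 1 / 2 ≤ a) (hε : 0 < ε)
    (hε1 : ε ≤ 1) (hη : 0 ≤ η) (hη1 : η ≤ 1)
    (h : ∀ N : ℕ, 1 ≤ N → (({n : ℕ | 1 ≤ n ∧ n ≤ N ∧ (n : ℝ) ^ (2 * a + ε) < s * err k P ((n : ℝ) ^ 2)}.ncard : ℕ) : ℝ) ≤
      C * (N : ℝ) ^ (1 - η)) :
    ∃ C' : ℝ, ∀ X : ℝ, 1 ≤ X → volume {x : ℝ | 1 ≤ x ∧ x ≤ X ∧ x ^ (a + ε) < s * err k P x} ≤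
      ENNReal.ofReal (C' * X ^ (1 - η / 2)) := by
  obtain ⟨Q, hQ, hnear⟩ := near_square k P hs (η := ε / 2) (by linarith) (by linarith)
  obtain ⟨L, hL⟩ : ∃ L : ℝ, L = Q + 4 ^ (a + ε / 2) := ⟨_, rfl⟩
  have hL0 : 0 < L := by rw [hL]; positivity
  obtain ⟨x0, hx0⟩ : ∃ x0 : ℝ, x0 = max 1 (L ^ (2 / ε)) := ⟨_, rfl⟩
  have hx01 : 1 ≤ x0 := by rw [hx0]; exact le_max_left _ _
  have hbad : ∀ x : ℝ, 1 ≤ x → x0 < x → x ^ (a + ε) < s * err k P x → ∃ m : ℕ, 1 ≤ m ∧ (m : ℝ) ≤ Real.sqrt x + 1 ∧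
      Real.sqrt x ≤ m + 1 ∧ (m : ℝ) ^ (2 * a + ε) < s * err k P ((m : ℝ) ^ 2) := by
    intro x hx hxx hlt
    obtain ⟨m, hm1, hm2, hm3, hm4⟩ := hnear x hx
    refine ⟨m, hm1, hm2, hm3, ?_⟩
    have hxp : 0 < x := by linarith
    have hr1 : 1 ≤ Real.sqrt x := Real.one_le_sqrt.2 hx
    have hrx : Real.sqrt x ^ 2 = x := Real.sq_sqrt hxp.le
    have h1 : L ≤ x ^ (ε / 2) := by
      have h7 : L ^ (2 / ε) ≤ x := by
        have := le_max_right (1 : ℝ) (L ^ (2 / ε))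
        rw [← hx0] at this
        linarith
      calc L = (L ^ (2 / ε)) ^ (ε / 2) := by
            rw [← Real.rpow_mul hL0.le]
            have : 2 / ε * (ε / 2) = 1 := by field_simp
            rw [this, Real.rpow_one]
        _ ≤ x ^ (ε / 2) := Real.rpow_le_rpow (by positivity) h7 (by positivity)
    have h2 : x ^ (1 / 2 + ε / 2) ≤ x ^ (a + ε / 2) := Real.rpow_le_rpow_of_exponent_le hx (by linarith)
    have h3 : x ^ (a + ε) = x ^ (a + ε / 2) * x ^ (ε / 2) := by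
      rw [← Real.rpow_add hxp]
      ring_nf
    have h4 : (m : ℝ) ^ (2 * a + ε) ≤ 4 ^ (a + ε / 2) * x ^ (a + ε / 2) := by
      have hm5 : (m : ℝ) ^ (2 : ℝ) ≤ 4 * x := by
        rw [Real.rpow_two]
        have hmn : (0 : ℝ) ≤ m := Nat.cast_nonneg m
        nlinarith
      calc (m : ℝ) ^ (2 * a + ε) = ((m : ℝ) ^ (2 : ℝ)) ^ (a + ε / 2) := by
            rw [← Real.rpow_mul (Nat.cast_nonneg m)]
            ring_nf
        _ ≤ (4 * x) ^ (a + ε / 2) := Real.rpow_le_rpow (by positivity) hm5 (by linarith)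
        _ = _ := Real.mul_rpow (by norm_num) hxp.le
    have h5 : L * x ^ (a + ε / 2) ≤ x ^ (a + ε) := by
      rw [h3, mul_comm]
      gcongr
    have h6 : Q * x ^ (1 / 2 + ε / 2) ≤ Q * x ^ (a + ε / 2) := by gcongr
    rw [hL, add_mul] at h5
    linarith
  refine ⟨x0 + 16 * |C|, fun X hX => ?_⟩
  have hX0 : 0 < X := by linarith
  have hR1 : 1 ≤ Real.sqrt X := Real.one_le_sqrt.2 hX
  have hR0 : 0 < Real.sqrt X := by linarith
  obtain ⟨N, hN⟩ : ∃ N, N = ⌊2 * Real.sqrt X⌋₊ := ⟨_, rfl⟩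
  have hN1 : 1 ≤ N := by
    rw [hN]
    exact Nat.le_floor (by push_cast; linarith)
  have hN2 : (N : ℝ) ≤ 2 * Real.sqrt X := by
    rw [hN]
    exact Nat.floor_le (by positivity)
  have hfin : {n : ℕ | 1 ≤ n ∧ n ≤ N ∧ (n : ℝ) ^ (2 * a + ε) < s * err k P ((n : ℝ) ^ 2)}.Finite :=
    (finite_Iic N).subset fun n hn => hn.2.1
  have hsub : {x : ℝ | 1 ≤ x ∧ x ≤ X ∧ x ^ (a + ε) < s * err k P x} ⊆
      Icc 1 x0 ∪ ⋃ m ∈ hfin.toFinset, Icc (((m : ℝ) - 1) ^ 2) (((m : ℝ) + 1) ^ 2) := by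
    rintro x ⟨hx1, hx2, hx3⟩
    rcases le_or_gt x x0 with hxx | hxx
    · exact Or.inl ⟨hx1, hxx⟩
    · right
      obtain ⟨m, hm1, hm2, hm3, hm4⟩ := hbad x hx1 hxx hx3
      have hm1' : (1 : ℝ) ≤ m := by exact_mod_cast hm1
      have hrx : Real.sqrt x ^ 2 = x := Real.sq_sqrt (by linarith)
      have hrX : Real.sqrt x ≤ Real.sqrt X := Real.sqrt_le_sqrt hx2
      have hmN : m ≤ N := by
        rw [hN]
        apply Nat.le_floor
        linarith
      rw [mem_iUnion₂]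
      refine ⟨m, ?_, ?_, ?_⟩
      · rw [Finite.mem_toFinset]
        exact ⟨hm1, hmN, hm4⟩
      · rw [← hrx]
        exact pow_le_pow_left₀ (by linarith) (by linarith) 2
      · calc x = Real.sqrt x ^ 2 := hrx.symm
          _ ≤ ((m : ℝ) + 1) ^ 2 := pow_le_pow_left₀ (Real.sqrt_nonneg x) hm3 2
  have hcard : ((hfin.toFinset.card : ℕ) : ℝ) ≤ |C| * (2 * Real.sqrt X ^ (1 - η)) := by
    rw [← ncard_eq_toFinset_card _ hfin]
    refine (h N hN1).trans ?_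
    have h1 : (N : ℝ) ^ (1 - η) ≤ 2 * Real.sqrt X ^ (1 - η) := by
      calc (N : ℝ) ^ (1 - η) ≤ (2 * Real.sqrt X) ^ (1 - η) := Real.rpow_le_rpow (Nat.cast_nonneg N) hN2 (by linarith)
        _ = 2 ^ (1 - η) * Real.sqrt X ^ (1 - η) := Real.mul_rpow (by norm_num) hR0.le
        _ ≤ 2 * Real.sqrt X ^ (1 - η) := by
            gcongr
            calc (2 : ℝ) ^ (1 - η) ≤ 2 ^ (1 : ℝ) := Real.rpow_le_rpow_of_exponent_le (by norm_num) (by linarith)
              _ = 2 := Real.rpow_one 2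
    calc C * (N : ℝ) ^ (1 - η) ≤ |C| * (N : ℝ) ^ (1 - η) := by
          gcongr
          exact le_abs_self C
      _ ≤ _ := by gcongr
  calc volume {x : ℝ | 1 ≤ x ∧ x ≤ X ∧ x ^ (a + ε) < s * err k P x} ≤
      volume (Icc 1 x0 ∪ ⋃ m ∈ hfin.toFinset, Icc (((m : ℝ) - 1) ^ 2) (((m : ℝ) + 1) ^ 2)) := measure_mono hsub
    _ ≤ volume (Icc 1 x0) + volume (⋃ m ∈ hfin.toFinset, Icc (((m : ℝ) - 1) ^ 2) (((m : ℝ) + 1) ^ 2)) := measure_union_le _ _
    _ ≤ ENNReal.ofReal x0 + ∑ m ∈ hfin.toFinset, ENNReal.ofReal (8 * Real.sqrt X) := by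
        gcongr
        · rw [Real.volume_Icc]
          exact ENNReal.ofReal_le_ofReal (by linarith)
        · refine (measure_biUnion_finset_le _ _).trans (Finset.sum_le_sum fun m hm => ?_)
          rw [Finite.mem_toFinset] at hm
          have hmN : (m : ℝ) ≤ N := by exact_mod_cast hm.2.1
          rw [Real.volume_Icc]
          apply ENNReal.ofReal_le_ofReal
          nlinarith
    _ = ENNReal.ofReal (x0 + (hfin.toFinset.card : ℝ) * (8 * Real.sqrt X)) := by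
        rw [Finset.sum_const, nsmul_eq_mul, ENNReal.ofReal_add (by linarith) (by positivity),
          ENNReal.ofReal_mul (Nat.cast_nonneg _), ENNReal.ofReal_natCast]
    _ ≤ _ := by
        apply ENNReal.ofReal_le_ofReal
        have h1 : (1 : ℝ) ≤ X ^ (1 - η / 2) := Real.one_le_rpow hX (by linarith)
        have h2 : Real.sqrt X ^ (1 - η) * Real.sqrt X = X ^ (1 - η / 2) := by
          rw [Real.sqrt_eq_rpow, ← Real.rpow_mul hX0.le, ← Real.rpow_add hX0]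
          congr 1
          ring
        calc x0 + (hfin.toFinset.card : ℝ) * (8 * Real.sqrt X) ≤
            x0 + |C| * (2 * Real.sqrt X ^ (1 - η)) * (8 * Real.sqrt X) := by gcongr
          _ = x0 + 16 * |C| * (Real.sqrt X ^ (1 - η) * Real.sqrt X) := by ring
          _ = x0 + 16 * |C| * X ^ (1 - η / 2) := by rw [h2]
          _ ≤ x0 * X ^ (1 - η / 2) + 16 * |C| * X ^ (1 - η / 2) := by
              have : x0 * 1 ≤ x0 * X ^ (1 - η / 2) := mul_le_mul_of_nonneg_left h1 (by linarith)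
              linarith
          _ = _ := by ring

end Pool.Agent.J4H31.EX
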